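import Pool.Agent.W739.CY.Stm

/-!
# Project CY, part AB: the measure-theoretic part of the assembly
-/

set_option autoImplicit false
set_option linter.unusedSectionVars false

open MeasureTheory ProbabilityTheory

namespace Pool.Agent.W715.CY

open Pool.Agent.W739.CY
open scoped Classical

section

variable {Ω : Type} [Fintype Ω] [MeasurableSpace Ω] [MeasurableSingletonClass Ω]

/-- the sum of `Cf` over a set -/
noncomputable def ms (Cf : Ω → ℝ) (S : Set Ω) : ℝ := ∑ x : Ω, if x ∈ S then Cf x else 0

/-- the measure with density `Cf` -/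
noncomputable def mu (Cf : Ω → ℝ) : Measure Ω :=
  ∑ x : Ω, ENNReal.ofReal (Cf x) • Measure.dirac x

theorem ms_nonneg {Cf : Ω → ℝ} (h0 : ∀ x, 0 ≤ Cf x) (S : Set Ω) : 0 ≤ ms Cf S := by
  unfold ms
  apply Finset.sum_nonneg
  intro x _
  split_ifs
  · exact h0 x
  · exact le_rfl

theorem mu_apply {Cf : Ω → ℝ} (h0 : ∀ x, 0 ≤ Cf x) (S : Set Ω) :
    mu Cf S = ENNReal.ofReal (ms Cf S) := by
  have hS : MeasurableSet S := (Set.toFinite S).measurableSet
  unfold mu ms
  rw [Measure.finsetSum_apply, ENNReal.ofReal_sum_of_nonneg]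
  · apply Finset.sum_congr rfl
    intro x _
    rw [Measure.smul_apply, Measure.dirac_apply' _ hS, smul_eq_mul]
    by_cases hx : x ∈ S
    · simp [hx]
    · simp [hx]
  · intro x _
    split_ifs
    · exact h0 x
    · exact le_rfl

theorem ms_split {α β : Type} [Fintype α] [Fintype β] (Cf : Ω → ℝ) (f : Ω → α) (g : Ω → β)
    (s : Set α) (t : Set β) : ms Cf (f ⁻¹' s ∩ g ⁻¹' t) =
      ∑ a : α, ∑ b : β, if a ∈ s ∧ b ∈ t then ms Cf (f ⁻¹' {a} ∩ g ⁻¹' {b}) else 0 := by
  have h1 : ∀ a : α, ∀ b : β, (if a ∈ s ∧ b ∈ t then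
      ms Cf (f ⁻¹' {a} ∩ g ⁻¹' {b}) else 0) =
      ∑ x : Ω, if a = f x then (if b = g x then (if a ∈ s ∧ b ∈ t then Cf x else 0) else 0) else 0 := by
    intro a b
    unfold ms
    split_ifs with h
    · apply Finset.sum_congr rfl
      intro x _
      by_cases h1 : a = f x
      · by_cases h2 : b = g x
        · simp [h1, h2]
        · have : ¬ g x = b := fun h => h2 h.symm
          simp [h1, h2, this]
      · have : ¬ f x = a := fun h => h1 h.symm
        simp [h1, this]
    · symm
      apply Finset.sum_eq_zero
      intro x _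
      split_ifs <;> rfl
  have h2 : ∀ a : α, (∑ b : β, ∑ x : Ω, if a = f x then (if b = g x then
      (if a ∈ s ∧ b ∈ t then Cf x else 0) else 0) else 0) =
      ∑ x : Ω, if a = f x then (if a ∈ s ∧ g x ∈ t then Cf x else 0) else 0 := by
    intro a
    rw [Finset.sum_comm]
    apply Finset.sum_congr rfl
    intro x _
    by_cases h : a = f x
    · simp only [h, if_true]
      rw [Finset.sum_ite_eq' Finset.univ (g x) (fun b => if f x ∈ s ∧ b ∈ t then Cf x else 0)]
      simp
    · simp [h]
  have h3 : (∑ a : α, ∑ b : β, if a ∈ s ∧ b ∈ t then ms Cf (f ⁻¹' {a} ∩ g ⁻¹' {b}) else 0) =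
      ∑ a : α, ∑ x : Ω, if a = f x then (if a ∈ s ∧ g x ∈ t then Cf x else 0) else 0 := by
    apply Finset.sum_congr rfl
    intro a _
    rw [← h2 a]
    apply Finset.sum_congr rfl
    intro b _
    exact h1 a b
  rw [h3, Finset.sum_comm]
  unfold ms
  apply Finset.sum_congr rfl
  intro x _
  rw [Finset.sum_ite_eq' Finset.univ (f x) (fun a => if a ∈ s ∧ g x ∈ t then Cf x else 0)]
  simp

theorem ms_preimage {α : Type} [Fintype α] (Cf : Ω → ℝ) (f : Ω → α) (s : Set α) :
    ms Cf (f ⁻¹' s) = ∑ a : α, if a ∈ s then ms Cf (f ⁻¹' {a}) else 0 := by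
  have h := ms_split Cf f (fun _ => ()) s Set.univ
  simpa using h

theorem indep_of_singletons {α β : Type} [Fintype α] [Fintype β] [MeasurableSpace α]
    [MeasurableSpace β] {Cf : Ω → ℝ} (h0 : ∀ x, 0 ≤ Cf x) (f : Ω → α) (g : Ω → β)
    (h : ∀ a b, ms Cf (f ⁻¹' {a} ∩ g ⁻¹' {b}) = ms Cf (f ⁻¹' {a}) * ms Cf (g ⁻¹' {b})) :
    IndepFun f g (mu Cf) := by
  rw [indepFun_iff_measure_inter_preimage_eq_mul]
  intro s t _ _
  rw [mu_apply h0, mu_apply h0, mu_apply h0, ← ENNReal.ofReal_mul (ms_nonneg h0 _)]
  congr 1
  rw [ms_split, ms_preimage Cf f s, ms_preimage Cf g t, Finset.sum_mul_sum]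
  apply Finset.sum_congr rfl
  intro a _
  apply Finset.sum_congr rfl
  intro b _
  rw [h a b]
  by_cases ha : a ∈ s
  · by_cases hb : b ∈ t
    · simp [ha, hb]
    · simp [hb]
  · simp [ha]

end

theorem ite_iff {p q : Prop} [Decidable p] [Decidable q] (h : p ↔ q) (a b : ℝ) :
    (if p then a else b) = (if q then a else b) := by
  by_cases hp : p
  · rw [if_pos hp, if_pos (h.1 hp)]
  · rw [if_neg hp, if_neg (fun hq => hp (h.2 hq))]

theorem t_AB : Pool.Agent.W739.CY.S_AB := by
  intro q k k' n Cf hk h0 h1 hprop hsym hmass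
  refine ⟨mu Cf, ?_, ?_, ?_, ?_⟩
  · constructor
    rw [mu_apply h0]
    have : ms Cf Set.univ = 1 := by
      unfold ms
      simpa using h1
    rw [this, ENNReal.ofReal_one]
  · rw [ae_iff, mu_apply h0]
    have : ms Cf {a : Fin n → Fin q | ¬ ∀ i j : Fin n, (SimpleGraph.cycleGraph n).Adj i j →
        a i ≠ a j} = 0 := by
      unfold ms
      apply Finset.sum_eq_zero
      intro x _
      split_ifs with hx
      · apply hprop
        have hx' : ¬ ∀ i j : Fin n, (SimpleGraph.cycleGraph n).Adj i j → x i ≠ x j := hx
        push Not at hx'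
        exact hx'
      · rfl
    rw [this, ENNReal.ofReal_zero]
  · intro σ
    ext S hS
    rw [Measure.map_apply (measurable_of_finite _) hS, mu_apply h0, mu_apply h0]
    congr 1
    unfold ms
    rw [← Equiv.sum_comp (Equiv.piCongrRight (fun _ : Fin n => σ))
      (fun x => if x ∈ S then Cf x else 0)]
    apply Finset.sum_congr rfl
    intro x _
    have e : (Equiv.piCongrRight (fun _ : Fin n => σ)) x = σ ∘ x := rfl
    rw [e, hsym σ x]
    rfl
  · intro A B hAB
    apply indep_of_singletons h0
    intro a b
    have hdisj : ∀ i, i ∈ A → i ∈ B → False := by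
      intro i hA hB
      have := hAB i hA i hB
      simp at this
    let s : Fin n → Option (Fin q) := fun i => if h : i ∈ A then some (a ⟨i, h⟩) else none
    let t : Fin n → Option (Fin q) := fun i => if h : i ∈ B then some (b ⟨i, h⟩) else none
    have hs1 : ∀ i (h : i ∈ A), s i = some (a ⟨i, h⟩) := fun i h => dif_pos h
    have hs0 : ∀ i, i ∉ A → s i = none := fun i h => dif_neg h
    have ht1 : ∀ i (h : i ∈ B), t i = some (b ⟨i, h⟩) := fun i h => dif_pos h
    have ht0 : ∀ i, i ∉ B → t i = none := fun i h => dif_neg h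
    have hS : ∀ x : Fin n → Fin q, (∀ i, s i = none ∨ s i = some (x i)) ↔
        (fun i : A => x i) = a := by
      intro x
      constructor
      · intro h
        funext i
        rcases h i with h2 | h2
        · rw [hs1 i i.2] at h2
          exact absurd h2 (by simp)
        · rw [hs1 i i.2] at h2
          exact (Option.some.inj h2).symm
      · intro h i
        by_cases hi : i ∈ A
        · right
          rw [hs1 i hi, ← h]
        · left
          exact hs0 i hi
    have hT : ∀ x : Fin n → Fin q, (∀ i, t i = none ∨ t i = some (x i)) ↔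
        (fun i : B => x i) = b := by
      intro x
      constructor
      · intro h
        funext i
        rcases h i with h2 | h2
        · rw [ht1 i i.2] at h2
          exact absurd h2 (by simp)
        · rw [ht1 i i.2] at h2
          exact (Option.some.inj h2).symm
      · intro h i
        by_cases hi : i ∈ B
        · right
          rw [ht1 i hi, ← h]
        · left
          exact ht0 i hi
    have hST : ∀ x : Fin n → Fin q, (∀ i, (s i).or (t i) = none ∨ (s i).or (t i) = some (x i)) ↔
        ((fun i : A => x i) = a ∧ (fun i : B => x i) = b) := by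
      intro x
      rw [← hS, ← hT]
      constructor
      · intro h
        constructor
        · intro i
          by_cases hi : i ∈ A
          · have := h i
            rw [hs1 i hi] at this ⊢
            simpa using this
          · left; exact hs0 i hi
        · intro i
          by_cases hi : i ∈ B
          · have hA : i ∉ A := fun hA => hdisj i hA hi
            have := h i
            rw [hs0 i hA] at this
            simpa using this
          · left; exact ht0 i hi
      · rintro ⟨h, h'⟩ i
        by_cases hi : i ∈ A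
        · have := h i
          rw [hs1 i hi] at this ⊢
          simpa using this
        · have := h' i
          rw [hs0 i hi]
          simpa using this
    have hm := hmass s t (by
      intro i j hi hj
      have hiA : i ∈ A := by
        by_contra hc
        exact hi (hs0 i hc)
      have hjB : j ∈ B := by
        by_contra hc
        exact hj (ht0 j hc)
      exact lt_of_le_of_lt hk (hAB i hiA j hjB))
    have e1 : Mass Cf (fun i => (s i).or (t i)) =
        ms Cf ((fun x : Fin n → Fin q => fun i : A => x i) ⁻¹' {a} ∩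
          (fun x : Fin n → Fin q => fun i : B => x i) ⁻¹' {b}) := by
      unfold Mass ms
      apply Finset.sum_congr rfl
      intro x _
      have h9 : (∀ i, (s i).or (t i) = none ∨ (s i).or (t i) = some (x i)) ↔
          x ∈ ((fun x : Fin n → Fin q => fun i : A => x i) ⁻¹' {a} ∩
          (fun x : Fin n → Fin q => fun i : B => x i) ⁻¹' {b}) := by rw [hST x]; rfl
      by_cases hp : x ∈ ((fun x : Fin n → Fin q => fun i : A => x i) ⁻¹' {a} ∩
          (fun x : Fin n → Fin q => fun i : B => x i) ⁻¹' {b})
      · rw [if_pos hp, if_pos (h9.2 hp)]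
      · rw [if_neg hp, if_neg (fun hq => hp (h9.1 hq))]
    have e2 : Mass Cf s = ms Cf ((fun x : Fin n → Fin q => fun i : A => x i) ⁻¹' {a}) := by
      unfold Mass ms
      apply Finset.sum_congr rfl
      intro x _
      exact ite_iff (by rw [hS x]; rfl) _ _
    have e3 : Mass Cf t = ms Cf ((fun x : Fin n → Fin q => fun i : B => x i) ⁻¹' {b}) := by
      unfold Mass ms
      apply Finset.sum_congr rfl
      intro x _
      exact ite_iff (by rw [hT x]; rfl) _ _
    rw [e1, e2, e3] at hm
    exact hm

end Pool.Agent.W715.CY
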